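import Mathlib
import Pool.Agent.Work.MP_332575_al.Bd.B08
import Pool.Agent.Work.MP_332575_al.Bd.B07

set_option autoImplicit false

/-! Main theorem. -/

namespace VRC

/-- The construction for a superperfect fibre. -/
theorem main_construction (X : Type) [Group X] (hfp : Group.IsFinitelyPresented X)
    (hX : commutator X = ⊤) (hSP : SP X) :
    ∃ (G : Type) (_ : Group G), IsFP G ∧ Nonempty (Tower X G) := by
  obtain ⟨G, hG, h1, h2⟩ := prf_Tower (prf_AT prf_Gen) prf_SPpi prf_PerfPi prf_Gen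
    (prf_FPpi prf_FPprod) X hfp hX hSP
  exact ⟨G, hG, prf_FPform G h1, h2⟩

theorem nc_of (X : Type) [Group X] (hX : commutator X = ⊤) (hinf : ∃ g : X, ¬ IsOfFinOrder g) :
    ∃ a b : X, a * b ≠ b * a := by
  by_contra h
  push Not at h
  obtain ⟨g, hg⟩ := hinf
  apply hg
  have hc : commutator X ≤ ⊥ := by
    rw [commutator_def, Subgroup.commutator_le]
    intro a _ b _
    rw [Subgroup.mem_bot, commutatorElement_eq_one_iff_mul_comm]
    exact h a b
  have : g ∈ (⊥ : Subgroup X) := hc (by rw [hX]; exact Subgroup.mem_top g)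
  rw [Subgroup.mem_bot.mp this]
  exact IsOfFinOrder.one

/-- A finitely presented group with (VRC) and infinite virtual first Betti number which is neither
virtually abelian nor large. -/
theorem main_VRC : ∃ (G : Type) (_ : Group G), IsFP G ∧ IsVRC G ∧ ¬ IsVAb G ∧ ¬ IsLarge G ∧
    InfVB1 G := by
  obtain ⟨X0, hX0, hN⟩ := prf_Nice prf_FPsemi (prf_FPpi prf_FPprod)
  obtain ⟨X, hX, p, hfp, hper, hSP, hsurj, hker⟩ := prf_UCE X0 hN.1 hN.2.1
  obtain ⟨hVAN, hRF, hVI, hinf⟩ := prf_Lift X0 hN X p hfp hper hsurj hker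
  obtain ⟨G, hG, hGfp, ⟨T⟩⟩ := main_construction X hfp hper hSP
  exact ⟨G, hG, hGfp, prf_ConsVRC X G T hVI hRF, prf_ConsNVA X G T (nc_of X hper hinf),
    prf_ConsNL prf_F2 prf_F2tf X G T hVAN, prf_ConsVB X G T hVI hinf⟩

/-- A torsion free superperfect virtually abelian fibre gives a full positive answer. -/
theorem main_TF (X : Type) [Group X] (hfp : Group.IsFinitelyPresented X)
    (hX : commutator X = ⊤) (hSP : SP X) (hVAN : VAN X) (hRF : RF X) (hVI : VI X)
    (htf : ∀ g : X, g ≠ 1 → ¬ IsOfFinOrder g) (hnt : ∃ g : X, g ≠ 1) :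
    ∃ (G : Type) (_ : Group G), IsFP G ∧ (∀ g : G, g ≠ 1 → ¬ IsOfFinOrder g) ∧ IsVRC G ∧
      ¬ IsVAb G ∧ ¬ IsLarge G := by
  obtain ⟨G, hG, hGfp, ⟨T⟩⟩ := main_construction X hfp hX hSP
  obtain ⟨g, hg⟩ := hnt
  exact ⟨G, hG, hGfp, prf_ConsTF X G T htf, prf_ConsVRC X G T hVI hRF,
    prf_ConsNVA X G T (nc_of X hX ⟨g, htf g hg⟩), prf_ConsNL prf_F2 prf_F2tf X G T hVAN⟩

end VRC
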