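import Mathlib

set_option autoImplicit false

/-! Lemma W2: a relation for the commutator form of a central extension (elementary). -/

namespace VRC.W2

/-- the commutator -/
def cm {E : Type} [Group E] (u v : E) : E := u * v * u⁻¹ * v⁻¹

/-- the data: `A` central of exponent two, `T` a subgroup with commutators in `A` -/
structure Dat {E : Type} [Group E] (A T : Subgroup E) : Prop where
  cen : ∀ a ∈ A, ∀ g : E, g * a = a * g
  two : ∀ a ∈ A, a * a = 1
  com : ∀ u ∈ T, ∀ v ∈ T, cm u v ∈ A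

variable {E : Type} [Group E] {A T : Subgroup E}

theorem swap (u v : E) : u * v = cm u v * (v * u) := by
  unfold cm; group

theorem sq_comm (D : Dat A T) {u v : E} (hu : u ∈ T) (hv : v ∈ T) : u * u * v = v * (u * u) := by
  have hc := D.com u hu v hv
  calc u * u * v = u * (u * v) := by group
    _ = u * (cm u v * (v * u)) := by rw [← swap]
    _ = (u * cm u v) * (v * u) := by group
    _ = cm u v * ((u * v) * u) := by rw [D.cen _ hc u]; group
    _ = cm u v * ((cm u v * (v * u)) * u) := by rw [← swap u v]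
    _ = (cm u v * cm u v) * (v * (u * u)) := by group
    _ = v * (u * u) := by rw [D.two _ hc, one_mul]

/-- bilinearity on the right -/
theorem bil (D : Dat A T) {u v w : E} (hu : u ∈ T) (hw : w ∈ T) :
    cm u (v * w) = cm u v * cm u w := by
  have hc := D.com u hu w hw
  have h := D.cen _ hc v
  have e : cm u (v * w) = cm u v * (v * cm u w) * v⁻¹ := by
    unfold cm; group
  rw [e, h]; group

theorem symm (D : Dat A T) {u v : E} (hu : u ∈ T) (hv : v ∈ T) : cm u v = cm v u := by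
  have hc := D.com u hu v hv
  have h := D.two _ hc
  have e : cm v u = (cm u v)⁻¹ := by unfold cm; group
  rw [e]
  exact eq_inv_of_mul_eq_one_left h

theorem one_of_cen (u : E) {a : E} (ha : ∀ g : E, g * a = a * g) : cm u a = 1 := by
  unfold cm; rw [ha u]; group

theorem one_of_comm {u v : E} (h : u * v = v * u) : cm u v = 1 := by
  unfold cm; rw [h]; group

/-- square of a product -/
theorem sq_mul (D : Dat A T) {u v : E} (hu : u ∈ T) (hv : v ∈ T) :
    (u * v) * (u * v) = cm u v * ((u * u) * (v * v)) := by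
  have hc := D.com v hv u hu
  calc (u * v) * (u * v) = u * (v * u) * v := by group
    _ = u * (cm v u * (u * v)) * v := by rw [← swap]
    _ = (u * cm v u) * ((u * v) * v) := by group
    _ = cm v u * ((u * u) * (v * v)) := by rw [D.cen _ hc u]; group
    _ = _ := by rw [symm D hv hu]

theorem mul_cen (D : Dat A T) {a : E} (ha : a ∈ A) (u v : E) : u * (a * v) = a * (u * v) := by
  rw [← mul_assoc, D.cen a ha u, mul_assoc]


theorem conj_cen (D : Dat A T) {a : E} (ha : a ∈ A) (x : E) : x * a * x⁻¹ = a := by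
  rw [D.cen a ha x]; group

theorem mulzz (D : Dat A T) {z : E} (hz : z ∈ A) (y u v : E) :
    (y * u) * (z * v) = (y * z) * (u * v) := by
  rw [mul_cen D hz, mul_assoc y u v, ← mul_assoc z y, ← D.cen z hz y]

theorem invz (D : Dat A T) {z : E} (hz : z ∈ A) (u : E) : (z * u)⁻¹ = z * u⁻¹ := by
  rw [mul_inv_rev, inv_eq_of_mul_eq_one_left (D.two _ hz), D.cen z hz]

/-- the norm element lies in `T` -/
theorem norm_mem {T : Subgroup E} (x m : E) (hx : ∀ u ∈ T, x * u * x⁻¹ ∈ T) (hm : m ∈ T) (k : ℕ) :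
    (m * x) ^ k * (x ^ k)⁻¹ ∈ T := by
  induction k with
  | zero => simp [T.one_mem]
  | succ k ih =>
    have e : (m * x) ^ (k + 1) * (x ^ (k + 1))⁻¹
        = m * (x * ((m * x) ^ k * (x ^ k)⁻¹) * x⁻¹) := by
      rw [pow_succ' (m * x), pow_succ' x, mul_inv_rev]
      simp only [mul_assoc]
    rw [e]
    exact T.mul_mem hm (hx _ ih)

theorem norm_conj (D : Dat A T) (x m : E) (n : ℕ) (hx : ∀ u ∈ T, x * u * x⁻¹ ∈ T) (hm : m ∈ T)
    (hp : x ^ n ∈ T) :
    x * ((m * x) ^ n * (x ^ n)⁻¹) * x⁻¹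
      = (cm ((m * x) ^ n * (x ^ n)⁻¹) m * cm (x ^ n) m) * ((m * x) ^ n * (x ^ n)⁻¹) := by
  have hN := norm_mem x m hx hm n
  have h1 : (m * x) * (m * x) ^ n = (m * x) ^ n * (m * x) := (Commute.self_pow _ n).eq
  have hxp : x * (x ^ n)⁻¹ = (x ^ n)⁻¹ * x := (Commute.inv_right (Commute.self_pow x n)).eq
  set p := x ^ n with hpd
  set q := (m * x) ^ n with hqd
  have h3 : x * (q * p⁻¹) * x⁻¹ = m⁻¹ * (q * p⁻¹) * (p * m * p⁻¹) := by
    calc x * (q * p⁻¹) * x⁻¹ = m⁻¹ * ((m * x) * q) * p⁻¹ * x⁻¹ := by group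
      _ = m⁻¹ * (q * (m * x)) * p⁻¹ * x⁻¹ := by rw [h1]
      _ = m⁻¹ * q * m * (x * p⁻¹) * x⁻¹ := by group
      _ = m⁻¹ * q * m * (p⁻¹ * x) * x⁻¹ := by rw [hxp]
      _ = m⁻¹ * (q * p⁻¹) * (p * m * p⁻¹) := by group
  set N := q * p⁻¹ with hNd
  have c1 := D.com p hp m hm
  have c2 := D.com N hN m hm
  have h6 : p * m * p⁻¹ = cm p m * m := by unfold cm; group
  rw [h3, h6, mul_assoc, mul_cen D c1, mul_cen D c1, swap N m, mul_cen D c2, ← mul_assoc m⁻¹,
    inv_mul_cancel, one_mul, ← mul_assoc, D.cen _ c2]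

/-- Lemma W2. -/
theorem main (D : Dat A T) (x y : E) (n : ℕ) (hxT : ∀ u ∈ T, x * u * x⁻¹ ∈ T)
    (hyT : ∀ u ∈ T, y * u * y⁻¹ ∈ T) (hp : x ^ n ∈ T) (r : E) (hr : r ∈ T)
    (hyx : y * x = r * x * y) (m0 m2 a w b : E) (h0 : m0 ∈ T) (h2 : m2 ∈ T) (ha : a ∈ T)
    (hw : w ∈ T) (hb : b ∈ T) (α1 α2 α3 α4 : E) (hα1 : α1 ∈ A) (hα2 : α2 ∈ A) (hα3 : α3 ∈ A)
    (hα4 : α4 ∈ A) (e1 : x * m0 * x⁻¹ = α1 * ((a * a) * m0))
    (e2 : y * m0 * y⁻¹ * m0⁻¹ * ((m2 * x) ^ n * (x ^ n)⁻¹) = α2 * (w * w))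
    (e3 : x * w * x⁻¹ = α3 * (w * b)) (e4 : y * a * y⁻¹ = α4 * (a * b)) :
    cm a b = cm r (y * m0 * y⁻¹) * (cm w b * (cm ((m2 * x) ^ n * (x ^ n)⁻¹) m2 * cm (x ^ n) m2)) := by
  have hNT := norm_mem x m2 hxT h2 n
  have eN := norm_conj D x m2 n hxT h2 hp
  have hFT : y * m0 * y⁻¹ * m0⁻¹ ∈ T := T.mul_mem (hyT _ h0) (T.inv_mem h0)
  have hFm : y * m0 * y⁻¹ = (y * m0 * y⁻¹ * m0⁻¹) * m0 := by group
  generalize (m2 * x) ^ n * (x ^ n)⁻¹ = N at *
  generalize x ^ n = p at *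
  generalize hF : y * m0 * y⁻¹ * m0⁻¹ = F at *
  have cab := D.com a ha b hb
  have cwb := D.com w hw b hb
  have cN := D.com N hNT m2 h2
  have cp := D.com p hp m2 h2
  have cNp := A.mul_mem cN cp
  -- squares
  have sq3 : (x * w * x⁻¹) * (x * w * x⁻¹) = cm w b * ((w * w) * (b * b)) := by
    rw [e3, mulzz D hα3, D.two _ hα3, one_mul, sq_mul D hw hb]
  have sq4 : (y * a * y⁻¹) * (y * a * y⁻¹) = cm a b * ((a * a) * (b * b)) := by
    rw [e4, mulzz D hα4, D.two _ hα4, one_mul, sq_mul D ha hb]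
  -- step C
  have eF : F = α2 * ((w * w) * N⁻¹) := by rw [← mul_assoc, ← e2]; group
  have hbw : (w * w) * (b * b) = (b * b) * (w * w) := by
    rw [← mul_assoc (w * w) b b, sq_comm D hw hb, mul_assoc b, sq_comm D hw hb, ← mul_assoc]
  have eFx : x * F * x⁻¹ = (cm w b * (cm N m2 * cm p m2)) * ((b * b) * F) := by
    have s1 : x * F * x⁻¹ = (x * α2 * x⁻¹) * (((x * w * x⁻¹) * (x * w * x⁻¹)) * (x * N * x⁻¹)⁻¹) := by
      rw [eF]; group
    rw [s1, conj_cen D hα2, sq3, eN, invz D cNp, mulzz D cNp, hbw, eF, mul_cen D hα2 (b * b),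
      mul_cen D hα2 (cm w b * (cm N m2 * cm p m2)), mul_assoc (b * b)]
  -- step B
  have eB : ((y * a * y⁻¹) * (y * a * y⁻¹)) * F = (a * a) * (cm r ((x * F * x⁻¹) * m0) * (x * F * x⁻¹)) := by
    have l1 : (y * x) * m0 * (y * x)⁻¹ = α1 * (((y * a * y⁻¹) * (y * a * y⁻¹)) * (F * m0)) := by
      have : (y * x) * m0 * (y * x)⁻¹ = y * (x * m0 * x⁻¹) * y⁻¹ := by group
      rw [this, e1]
      have : y * (α1 * (a * a * m0)) * y⁻¹
          = (y * α1 * y⁻¹) * (((y * a * y⁻¹) * (y * a * y⁻¹)) * (y * m0 * y⁻¹)) := by group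
      rw [this, conj_cen D hα1, hFm]
    have hFxT : x * F * x⁻¹ ∈ T := hxT F hFT
    have l2 : (y * x) * m0 * (y * x)⁻¹
        = α1 * ((a * a) * (cm r ((x * F * x⁻¹) * m0) * ((x * F * x⁻¹) * m0))) := by
      have t1 : (y * x) * m0 * (y * x)⁻¹ = r * ((x * F * x⁻¹) * (x * m0 * x⁻¹)) * r⁻¹ := by
        rw [hyx]
        have : r * x * y * m0 * (r * x * y)⁻¹ = r * (x * (y * m0 * y⁻¹) * x⁻¹) * r⁻¹ := by group
        rw [this, hFm]; group
      rw [t1, e1]
      generalize x * F * x⁻¹ = G at *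
      have t2 : G * (α1 * (a * a * m0)) = α1 * ((a * a) * (G * m0)) := by
        rw [mul_cen D hα1, ← mul_assoc G, ← sq_comm D ha hFxT, mul_assoc (a * a)]
      rw [t2, mul_cen D hα1, mul_assoc α1]
      congr 1
      rw [← mul_assoc r, ← sq_comm D ha hr]
      unfold cm; group
    have l3 := l1.symm.trans l2
    have l4 := mul_left_cancel l3
    have l5 : (((y * a * y⁻¹) * (y * a * y⁻¹)) * F) * m0
        = ((a * a) * (cm r ((x * F * x⁻¹) * m0) * (x * F * x⁻¹))) * m0 := by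
      rw [mul_assoc ((y * a * y⁻¹) * (y * a * y⁻¹)), l4]; simp only [mul_assoc]
    exact mul_right_cancel l5
  -- step E
  have hbb : b * b ∈ T := T.mul_mem hb hb
  have hr2 : cm r (b * b) = 1 := one_of_comm (sq_comm D hb hr).symm
  have hZ : (cm w b * (cm N m2 * cm p m2)) ∈ A := A.mul_mem cwb cNp
  have eE : cm r ((x * F * x⁻¹) * m0) = cm r (F * m0) := by
    rw [eFx, mul_assoc (cm w b * (cm N m2 * cm p m2)), mul_assoc (b * b)]
    have : cm r ((cm w b * (cm N m2 * cm p m2)) * (b * b * (F * m0)))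
        = cm r (cm w b * (cm N m2 * cm p m2)) * cm r (b * b * (F * m0)) :=
      bil D hr (T.mul_mem hbb (T.mul_mem hFT h0))
    rw [this, one_of_cen r (D.cen _ hZ), one_mul, bil D hr (T.mul_mem hFT h0), hr2, one_mul]
  rw [eE, sq4, eFx] at eB
  have cr := D.com r hr _ (T.mul_mem hFT h0)
  have fin1 : (a * a) * (cm r (F * m0) * ((cm w b * (cm N m2 * cm p m2)) * (b * b * F)))
      = (cm r (F * m0) * (cm w b * (cm N m2 * cm p m2))) * ((a * a) * (b * b) * F) := by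
    rw [mul_cen D cr, mul_cen D hZ]; simp only [mul_assoc]
  rw [fin1, mul_assoc (cm a b)] at eB
  rw [hFm]
  exact mul_right_cancel eB

end VRC.W2
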